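import Pool.Agent.Helper179.Transfer

open MeasureTheory Filter Topology
open scoped ENNReal NNReal

namespace Pool.Agent.Results.MP_eeb913_an.SiegelMany

open Pool.Agent.Helper179.KS Pool.Agent.Helper179.Eq Pool.Agent.Helper179.Siegel

/-- The elementary Henon map `(x, y) ↦ (p(x) - a y, x)`. -/
noncomputable def elementaryHenon (p : Polynomial ℂ) (a : ℂ) (z : ℂ × ℂ) : ℂ × ℂ :=
  (p.eval z.1 - a * z.2, z.1)

/-- Complex Henon maps: compositions `f₁ ∘ ⋯ ∘ f_m` (`m ≥ 1`) of elementary Henon maps with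
polynomials of degree at least `2` and non-zero parameters `a`. -/
inductive IsComplexHenon : (ℂ × ℂ → ℂ × ℂ) → Prop
  | elementary (p : Polynomial ℂ) (a : ℂ) (hp : 2 ≤ p.natDegree) (ha : a ≠ 0) :
      IsComplexHenon (elementaryHenon p a)
  | comp (p : Polynomial ℂ) (a : ℂ) (f : ℂ × ℂ → ℂ × ℂ) (hp : 2 ≤ p.natDegree) (ha : a ≠ 0)
      (hf : IsComplexHenon f) : IsComplexHenon (elementaryHenon p a ∘ f)

lemma conj_mapS_henon : IsComplexHenon (conj mapS) := by
  have h : conj mapS =
      elementaryHenon (Polynomial.X ^ 2 + Polynomial.C bb * Polynomial.X) (1 / 4) := by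
    funext z
    simp [mapS, elementaryHenon, conj]
  rw [h]
  refine IsComplexHenon.elementary _ _ ?_ (by norm_num)
  have : (Polynomial.X ^ 2 + Polynomial.C bb * Polynomial.X : Polynomial ℂ).natDegree = 2 := by
    compute_degree!
  omega

/-- The closed invariant disc. -/
def Dcl : Set (ℂ × ℂ) := psi '' Metric.closedBall 0 (r0 / 2)

lemma psi_continuousOn : ContinuousOn psi (Metric.closedBall 0 r0) := by
  have : LipschitzOnWith (11 / 10 : NNReal) psi (Metric.closedBall 0 r0) := by
    apply LipschitzOnWith.of_dist_le_mul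
    intro z hz w hw
    rw [mem_closedBall_zero_iff] at hz hw
    have := psi_lip hz hw
    rw [dist_eq_norm z w]
    simpa using this
  exact this.continuousOn

lemma isCompact_Dcl : IsCompact Dcl := by
  apply (isCompact_closedBall (0 : ℂ) (r0 / 2)).image_of_continuousOn
  apply psi_continuousOn.mono
  apply Metric.closedBall_subset_closedBall
  have := r0_pos
  linarith

lemma Dcl_nonempty : Dcl.Nonempty := by
  refine ⟨psi 0, 0, ?_, rfl⟩
  rw [mem_closedBall_zero_iff, norm_zero]
  have := r0_pos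
  positivity

/-- Distance to the closed disc, truncated at `1`. -/
noncomputable def dd (p : ℂ × ℂ) : ℝ := min (Metric.infDist p Dcl) 1

lemma dd_nonneg (p : ℂ × ℂ) : 0 ≤ dd p := le_min Metric.infDist_nonneg zero_le_one

lemma dd_le_one (p : ℂ × ℂ) : dd p ≤ 1 := min_le_right _ _

lemma continuous_dd : Continuous dd := by
  unfold dd
  exact (Metric.continuous_infDist_pt _).min continuous_const

lemma dd_mem {p : ℂ × ℂ} (hp : p ∈ Dcl) : dd p = 0 := by
  unfold dd
  rw [Metric.infDist_zero_of_mem hp]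
  simp

lemma abs_dd_sub_le (p q : ℂ × ℂ) : |dd p - dd q| ≤ ‖p - q‖ := by
  unfold dd
  have h1 := abs_min_sub_min_le_max (Metric.infDist p Dcl) 1 (Metric.infDist q Dcl) 1
  rw [sub_self, abs_zero, max_eq_left (abs_nonneg _)] at h1
  refine h1.trans ?_
  rw [abs_le]
  have h2 := Metric.infDist_le_infDist_add_dist (s := Dcl) (x := p) (y := q)
  have h3 := Metric.infDist_le_infDist_add_dist (s := Dcl) (x := q) (y := p)
  rw [dist_comm] at h3
  rw [dist_eq_norm] at h2 h3
  constructor <;> linarith

/-- The weight: a multiple of the distance to the closed disc. -/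
noncomputable def wd (M : ℝ) (p : ℂ × ℂ) : ℝ := -(M * dd p)

lemma isHolder_wd (M : ℝ) : IsHolder (wd M) := by
  refine ⟨1, |M|, one_pos, le_rfl, ?_⟩
  intro z w
  rw [Real.rpow_one]
  unfold wd
  rw [show -(M * dd z) - -(M * dd w) = -(M * (dd z - dd w)) by ring, abs_neg, abs_mul]
  have h1 := abs_dd_sub_le z w
  have h2 := norm_le_euclid (z - w)
  simp only [Prod.fst_sub, Prod.snd_sub] at h2
  exact mul_le_mul_of_nonneg_left (h1.trans h2) (abs_nonneg M)

lemma near_tube' {p : ℂ × ℂ} (h : Metric.infDist p Dcl < r0 / 20) : p ∈ Tube := by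
  obtain ⟨_, ⟨z₀, hz₀, rfl⟩, ht⟩ := (Metric.infDist_lt_iff Dcl_nonempty).1 h
  have hr := r0_pos
  have hz₀n : ‖z₀‖ ≤ r0 / 2 := by simpa using hz₀
  have hio : psi z₀ = (u (lam⁻¹ * z₀), u z₀) := by
    unfold psi Th
    simp only [add_zero]
  rw [hio, Prod.dist_eq, max_lt_iff] at ht
  simp only [dist_eq_norm] at ht
  obtain ⟨ht1, ht2⟩ := ht
  obtain ⟨z, hz, hu⟩ := u_surj (z₀ := z₀) (x := p.2) (ρ := r0 / 10) (by positivity)
    (by linarith) (by linarith)
  have hzn : ‖z‖ ≤ r0 / 10 + r0 / 2 := by
    have h1 : ‖z‖ ≤ ‖z - z₀‖ + ‖z₀‖ := by simpa using norm_add_le (z - z₀) z₀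
    linarith
  have hw : ‖p.1 - u (lam⁻¹ * z)‖ ≤ r0 / 20 + (11 / 10) * (r0 / 10) := by
    have h1 : ‖p.1 - u (lam⁻¹ * z)‖ ≤ ‖p.1 - u (lam⁻¹ * z₀)‖ +
        ‖u (lam⁻¹ * z) - u (lam⁻¹ * z₀)‖ := by
      have := norm_sub_le (p.1 - u (lam⁻¹ * z₀)) (u (lam⁻¹ * z) - u (lam⁻¹ * z₀))
      rwa [show p.1 - u (lam⁻¹ * z₀) - (u (lam⁻¹ * z) - u (lam⁻¹ * z₀)) =
        p.1 - u (lam⁻¹ * z) by ring] at this
    have h2 := u_lip (z := lam⁻¹ * z) (w := lam⁻¹ * z₀) (by rw [norm_lam_inv_mul]; linarith)
      (by rw [norm_lam_inv_mul]; linarith)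
    rw [← mul_sub, norm_lam_inv_mul] at h2
    linarith
  refine ⟨(z, p.1 - u (lam⁻¹ * z)), ?_, ?_⟩
  · simp only
    linarith
  · unfold Th
    simp only
    rw [hu]
    apply Prod.ext
    · simp
    · rfl

lemma measurable_wd (M : ℝ) : Measurable (wd M) := by
  unfold wd
  exact (measurable_const.mul continuous_dd.measurable).neg

lemma integrable_wd (M : ℝ) (ν : Measure (ℂ × ℂ)) [IsProbabilityMeasure ν] :
    Integrable (wd M) ν := by
  apply Integrable.of_bound (measurable_wd M).aestronglyMeasurable |M|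
  apply Filter.Eventually.of_forall
  intro p
  unfold wd
  rw [norm_neg, norm_mul, Real.norm_eq_abs, Real.norm_eq_abs, abs_of_nonneg (dd_nonneg p)]
  have := dd_le_one p
  have := abs_nonneg M
  nlinarith

/-- All invariant probability measures on the closed disc are equilibrium states. -/
theorem many_equilibria : ∃ M : ℝ, ∀ ν, IsInvariantProb mapS ν → (∀ᵐ p ∂ν, p ∈ Dcl) →
    IsEquilibriumState mapS (wd M) ν := by
  obtain ⟨H, hH0, hH⟩ := mapS_entropy_bound
  have hr := r0_pos
  set M : ℝ := (H + 1) / (r0 / 20) with hM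
  have hMpos : 0 < M := by positivity
  have hMr : M * (r0 / 20) = H + 1 := by rw [hM]; field_simp
  have hent : ∀ ν, IsInvariantProb mapS ν →
      ksEntropy ν mapS ≤ (((1 - ν.real Disc) * H : ℝ) : EReal) := by
    intro ν hν
    have := hν.1
    have h := ksEntropy_le_of_invariant_set ν hν.2 measurableSet_disc disc_preimage 0 H
      (fun μ h1 h2 h3 _ => entropy_disc μ h1 h2 h3)
      (fun μ h1 h2 _ _ => hH μ h1 h2)
    simpa using h
  have hintg : ∀ ν, IsInvariantProb mapS ν →
      ∫ p, wd M p ∂ν ≤ -((H + 1) * (1 - ν.real Disc)) := by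
    intro ν hν
    have hp := hν.1
    have h1 : ∀ᵐ p ∂ν, wd M p ≤ Set.indicator Discᶜ (fun _ => -(H + 1)) p := by
      filter_upwards [tube_null ν hν.1 hν.2] with p hp
      by_cases hD : p ∈ Disc
      · rw [Set.indicator_of_notMem (by simpa using hD)]
        unfold wd
        have := dd_nonneg p
        have : 0 ≤ M * dd p := by positivity
        linarith
      · rw [Set.indicator_of_mem (by simpa using hD)]
        have h2 : p ∉ Tube := fun h => hD (hp h)
        have h3 : r0 / 20 ≤ Metric.infDist p Dcl := by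
          by_contra h
          exact h2 (near_tube' (not_le.1 h))
        have h4 : r0 / 20 ≤ dd p := by
          unfold dd
          apply le_min h3
          unfold r0
          norm_num
        unfold wd
        have : M * (r0 / 20) ≤ M * dd p := mul_le_mul_of_nonneg_left h4 hMpos.le
        linarith
    have h2 := integral_mono_ae (integrable_wd M ν)
      ((integrable_const (-(H + 1))).indicator measurableSet_disc.compl) h1
    rw [integral_indicator measurableSet_disc.compl, setIntegral_const, smul_eq_mul,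
      measureReal_compl measurableSet_disc] at h2
    simp only [probReal_univ] at h2
    linarith
  have hle : ∀ ν, IsInvariantProb mapS ν → freeEnergy mapS (wd M) ν ≤ 0 := by
    intro ν hν
    unfold freeEnergy
    have h1 := hent ν hν
    have h2 := hintg ν hν
    have hd : ν.real Disc ≤ 1 := by
      have := hν.1
      exact measureReal_le_one
    calc ksEntropy ν mapS + ((∫ p, wd M p ∂ν : ℝ) : EReal)
        ≤ (((1 - ν.real Disc) * H : ℝ) : EReal) +
          ((-((H + 1) * (1 - ν.real Disc)) : ℝ) : EReal) :=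
          add_le_add h1 (by exact_mod_cast h2)
      _ = ((-(1 - ν.real Disc) : ℝ) : EReal) := by
          rw [← EReal.coe_add]
          congr 1
          ring
      _ ≤ 0 := by
          have : -(1 - ν.real Disc) ≤ 0 := by linarith
          exact_mod_cast this
  have hge : ∀ ν, IsInvariantProb mapS ν → (∀ᵐ p ∂ν, p ∈ Dcl) →
      0 ≤ freeEnergy mapS (wd M) ν := by
    intro ν hν hD
    have hp := hν.1
    have h1 : ∫ p, wd M p ∂ν = 0 := by
      apply integral_eq_zero_of_ae
      filter_upwards [hD] with p hp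
      unfold wd
      rw [dd_mem hp]
      simp
    unfold freeEnergy
    rw [h1]
    have h := ksEntropy_nonneg ν mapS
    simpa using h
  refine ⟨M, ?_⟩
  intro ν hν hD
  refine ⟨hν, ?_⟩
  apply le_antisymm
  · exact le_iSup_of_le ν (le_iSup_of_le hν le_rfl)
  · refine le_trans ?_ (hge ν hν hD)
    apply iSup_le
    intro μ
    apply iSup_le
    intro hμ
    exact hle μ hμ

/-- The invariant circles. -/
noncomputable def ios (s : ℝ) (t : UnitAddCircle) : ℂ × ℂ := psi ((s : ℂ) * ee t)

lemma ios_arg {s : ℝ} (h0 : 0 ≤ s) (t : UnitAddCircle) : ‖(s : ℂ) * ee t‖ = s := by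
  rw [norm_mul, norm_ee, mul_one, Complex.norm_real, Real.norm_eq_abs, abs_of_nonneg h0]

lemma continuous_ios {s : ℝ} (h0 : 0 ≤ s) (h1 : s ≤ r0) : Continuous (ios s) := by
  unfold ios
  apply psi_continuousOn.comp_continuous (continuous_const.mul continuous_ee)
  intro t
  rw [mem_closedBall_zero_iff]
  change ‖(s : ℂ) * ee t‖ ≤ r0
  rw [ios_arg h0]
  exact h1

lemma mapS_ios {s : ℝ} (h0 : 0 ≤ s) (h1 : s ≤ r0) (t : UnitAddCircle) :
    mapS (ios s t) = ios s (t + al) := by
  unfold ios
  rw [mapS_psi (by rw [ios_arg h0]; exact h1), ee_add, ee_al]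
  congr 1
  ring

/-- Haar measure on the invariant circle of radius `s`. -/
noncomputable def mus (s : ℝ) : Measure (ℂ × ℂ) := haarT.map (ios s)

lemma mus_inv {s : ℝ} (h0 : 0 ≤ s) (h1 : s ≤ r0) : IsInvariantProb mapS (mus s) := by
  have hc := continuous_ios h0 h1
  refine ⟨Measure.isProbabilityMeasure_map hc.aemeasurable,
    continuous_mapS.measurable, ?_⟩
  unfold mus
  rw [Measure.map_map continuous_mapS.measurable hc.measurable]
  have h1' : mapS ∘ ios s = ios s ∘ (fun t => t + al) := by
    ext t : 1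
    exact mapS_ios h0 h1 t
  rw [h1', ← Measure.map_map hc.measurable (by fun_prop)]
  have h2 : haarT.map (fun t => t + al) = haarT := map_add_right_eq_self haarT al
  rw [h2]

lemma ergodic_rotation : Ergodic (fun t : UnitAddCircle => t + al) haarT := by
  have h : Ergodic (fun t : UnitAddCircle => t + al) (volume : Measure UnitAddCircle) := by
    rw [AddCircle.ergodic_add_right, ← AddCircle.denseRange_zsmul_iff]
    unfold al
    rw [AddCircle.denseRange_zsmul_coe_iff, div_one]
    exact irrational_sqrt_two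
  have h2 : (volume : Measure UnitAddCircle) = haarT := by
    unfold haarT
    rw [AddCircle.volume_eq_smul_haarAddCircle]
    simp
  rwa [h2] at h

lemma mus_ergodic {s : ℝ} (h0 : 0 ≤ s) (h1 : s ≤ r0) : Ergodic mapS (mus s) := by
  have hc := continuous_ios h0 h1
  refine ⟨(mus_inv h0 h1).2, ⟨?_⟩⟩
  intro A hA hinv
  have h2 : (fun t : UnitAddCircle => t + al) ⁻¹' (ios s ⁻¹' A) = ios s ⁻¹' A := by
    ext t
    simp only [Set.mem_preimage]
    rw [← mapS_ios h0 h1]
    change ios s t ∈ mapS ⁻¹' A ↔ _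
    rw [hinv]
  have h3 := ergodic_rotation.aeconst_set (hA.preimage hc.measurable) h2
  have hmp : MeasurePreserving (ios s) haarT (mus s) := ⟨hc.measurable, rfl⟩
  rw [eventuallyConst_set'] at h3 ⊢
  rcases h3 with h3 | h3
  · left
    rw [ae_eq_empty] at h3 ⊢
    rwa [hmp.measure_preimage hA.nullMeasurableSet] at h3
  · right
    rw [ae_eq_univ] at h3 ⊢
    rw [← Set.preimage_compl, hmp.measure_preimage hA.compl.nullMeasurableSet] at h3
    exact h3

lemma mus_injOn : Set.InjOn mus (Set.Icc 0 (r0 / 2)) := by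
  intro s hs s' hs' h
  have hr := r0_pos
  have hA : ∀ s ∈ Set.Icc 0 (r0 / 2), ∀ s' ∈ Set.Icc 0 (r0 / 2),
      mus s' (Set.range (ios s)) = if s = s' then 1 else 0 := by
    intro s hs s' hs'
    have hc := continuous_ios hs'.1 (by linarith [hs'.2])
    have hm : MeasurableSet (Set.range (ios s)) :=
      (isCompact_range (continuous_ios hs.1 (by linarith [hs.2]))).measurableSet
    unfold mus
    rw [Measure.map_apply hc.measurable hm]
    split_ifs with heq
    · subst heq
      rw [Set.preimage_range]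
      exact measure_univ
    · have : ios s' ⁻¹' Set.range (ios s) = ∅ := by
        rw [Set.eq_empty_iff_forall_notMem]
        rintro t ⟨t', ht'⟩
        unfold ios at ht'
        have h1 := psi_lower (z := (s : ℂ) * ee t') (z' := (s' : ℂ) * ee t)
          (by rw [ios_arg hs.1]; linarith [hs.2]) (by rw [ios_arg hs'.1]; linarith [hs'.2])
        rw [ht', dist_self] at h1
        have h2 : ‖(s : ℂ) * ee t' - (s' : ℂ) * ee t‖ = 0 :=
          le_antisymm (by linarith) (norm_nonneg _)
        have h3 := sub_eq_zero.1 (norm_eq_zero.1 h2)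
        have h4 : s = s' := by
          rw [← ios_arg hs.1 t', h3, ios_arg hs'.1]
        exact heq h4
      rw [this, measure_empty]
  have h1 := hA s hs s hs
  have h2 := hA s hs s' hs'
  rw [h, h2] at h1
  by_contra hne
  simp [hne] at h1

lemma ergodic_conj {f : ℂ × ℂ → ℂ × ℂ} {ν : Measure (ℂ × ℂ)} (h : Ergodic f ν) :
    Ergodic (conj f) (ν.map Prod.swap) := by
  have hmp : MeasurePreserving (Prod.swap : ℂ × ℂ → ℂ × ℂ) ν (ν.map Prod.swap) :=
    ⟨measurable_swap, rfl⟩
  refine ⟨?_, ⟨?_⟩⟩
  · refine ⟨measurable_conj h.measurable, ?_⟩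
    rw [Measure.map_map (measurable_conj h.measurable) measurable_swap]
    have h1 : conj f ∘ Prod.swap = Prod.swap ∘ f := by
      funext p
      simp [conj]
    rw [h1, ← Measure.map_map measurable_swap h.measurable, h.map_eq]
  · intro A hA hinv
    have h2 : f ⁻¹' (Prod.swap ⁻¹' A) = Prod.swap ⁻¹' A := by
      ext p
      simp only [Set.mem_preimage]
      have h3 : p.swap ∈ conj f ⁻¹' A ↔ p.swap ∈ A := by rw [hinv]
      simpa [conj] using h3
    have h3 := h.aeconst_set (hA.preimage measurable_swap) h2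
    rw [eventuallyConst_set'] at h3 ⊢
    rcases h3 with h3 | h3
    · left
      rw [ae_eq_empty] at h3 ⊢
      rwa [hmp.measure_preimage hA.nullMeasurableSet] at h3
    · right
      rw [ae_eq_univ] at h3 ⊢
      rw [← Set.preimage_compl, hmp.measure_preimage hA.compl.nullMeasurableSet] at h3
      exact h3

/-- Some complex Henon map has a Hölder continuous weight with uncountably many ergodic
equilibrium states. -/
theorem result : ∃ f : ℂ × ℂ → ℂ × ℂ, IsComplexHenon f ∧ ∃ φ : ℂ × ℂ → ℝ, IsHolder φ ∧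
    ¬ {ν : Measure (ℂ × ℂ) | IsEquilibriumState f φ ν ∧ Ergodic f ν}.Countable := by
  obtain ⟨M, hM⟩ := many_equilibria
  have hr := r0_pos
  refine ⟨conj mapS, conj_mapS_henon, wd M ∘ Prod.swap, isHolder_comp_swap (isHolder_wd M), ?_⟩
  intro hcount
  have hinj : Set.InjOn (fun s => (mus s).map Prod.swap) (Set.Icc 0 (r0 / 2)) := by
    intro s hs s' hs' h
    apply mus_injOn hs hs'
    have h1 : ((mus s).map Prod.swap).map Prod.swap = ((mus s').map Prod.swap).map Prod.swap := by
      have h2 : (mus s).map Prod.swap = (mus s').map Prod.swap := h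
      rw [h2]
    rwa [map_swap_swap, map_swap_swap] at h1
  have hmaps : Set.MapsTo (fun s => (mus s).map Prod.swap) (Set.Icc 0 (r0 / 2))
      {ν : Measure (ℂ × ℂ) | IsEquilibriumState (conj mapS) (wd M ∘ Prod.swap) ν ∧
        Ergodic (conj mapS) ν} := by
    intro s hs
    have hs1 : s ≤ r0 := by linarith [hs.2]
    refine ⟨isEquilibriumState_conj (hM _ (mus_inv hs.1 hs1) ?_),
      ergodic_conj (mus_ergodic hs.1 hs1)⟩
    unfold mus
    have hDm : MeasurableSet {p : ℂ × ℂ | p ∈ Dcl} := isCompact_Dcl.measurableSet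
    refine (ae_map_iff (continuous_ios hs.1 hs1).aemeasurable hDm).2 ?_
    apply Eventually.of_forall
    intro t
    refine ⟨(s : ℂ) * ee t, ?_, rfl⟩
    rw [mem_closedBall_zero_iff, ios_arg hs.1]
    exact hs.2
  have h1 : (Set.Icc (0 : ℝ) (r0 / 2)).Countable := hmaps.countable_of_injOn hinj hcount
  have h2 := Cardinal.Real.Icc_countable_iff.1 h1
  linarith

end Pool.Agent.Results.MP_eeb913_an.SiegelMany
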