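import Pool.Agent.Helper179.SinkMaps

open MeasureTheory Filter Topology

namespace Pool.Agent.Results.MP_eeb913_an.SinkNonUnique

open Pool.Agent.Helper179.Eq

/-- The elementary Henon map `(x, y) ↦ (p(x) - a y, x)`. -/
noncomputable def elementaryHenon (p : Polynomial ℂ) (a : ℂ) (z : ℂ × ℂ) : ℂ × ℂ :=
  (p.eval z.1 - a * z.2, z.1)

/-- Complex Henon maps: compositions `f₁ ∘ ⋯ ∘ f_m` (`m ≥ 1`) of elementary Henon maps with
polynomials of degree at least `2` and non-zero parameters `a`. -/
inductive IsComplexHenon : (ℂ × ℂ → ℂ × ℂ) → Prop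
  | elementary (p : Polynomial ℂ) (a : ℂ) (hp : 2 ≤ p.natDegree) (ha : a ≠ 0) :
      IsComplexHenon (elementaryHenon p a)
  | comp (p : Polynomial ℂ) (a : ℂ) (f : ℂ × ℂ → ℂ × ℂ) (hp : 2 ≤ p.natDegree) (ha : a ≠ 0)
      (hf : IsComplexHenon f) : IsComplexHenon (elementaryHenon p a ∘ f)

lemma mapA_henon : IsComplexHenon mapA := by
  have h : mapA = elementaryHenon (Polynomial.X ^ 2) (1 / 4) := by
    funext z
    simp [mapA, elementaryHenon]
  rw [h]
  exact IsComplexHenon.elementary _ _ (by simp) (by norm_num)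

/-- There are a complex Henon map and a Hölder continuous weight for which it is not true that
there is exactly one equilibrium state. -/
theorem result : ¬ ∀ f : ℂ × ℂ → ℂ × ℂ, IsComplexHenon f → ∀ φ : ℂ × ℂ → ℝ, IsHolder φ →
    ∃! ν : Measure (ℂ × ℂ), IsEquilibriumState f φ ν := by
  intro hall
  obtain ⟨H, hf⟩ := sinkData_mapA
  have hb : mapA (5 / 4, 5 / 4) = (5 / 4, 5 / 4) := by
    simp only [mapA]
    norm_num
  obtain ⟨t, ht⟩ := hf.exists_not_unique hb (by simp)
  exact ht (hall mapA mapA_henon _ (isHolder_smul_tent t))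

end Pool.Agent.Results.MP_eeb913_an.SinkNonUnique
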